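import Pool.Agent.Q189.SC6

/-!
MP_3c9300_gt, Q1: the sharp section inequality holds for every convex body, every set `σ` of
coordinates and every `s`-cover of `σ`.
-/

set_option autoImplicit false

open MeasureTheory

namespace Pool.Agent.Results.MP_3c9300_gt.SharpSectionInequality

/-- Volume (Lebesgue measure of dimension `n - |τ|`) of the section `K ∩ (x + H_τ^⊥)`.  A point of
`x + H_τ^⊥` has the coordinates of `x` on `τ` and arbitrary coordinates `y` outside of `τ`. -/
noncomputable def secVol {n : ℕ} (K : Set (Fin n → ℝ)) (τ : Finset (Fin n)) (x : Fin n → ℝ) : ℝ :=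
  (volume {y : (τᶜ : Finset (Fin n)) → ℝ | Function.updateFinset x τᶜ y ∈ K}).toReal

/-- `M_σ(K)`: the largest volume of a section of `K` by a translate of `H_σ^⊥` (supremum of the
volumes, taken in `[0,∞]`). -/
noncomputable def maxSec {n : ℕ} (K : Set (Fin n → ℝ)) (σ : Finset (Fin n)) : ℝ :=
  (⨆ x : Fin n → ℝ,
    volume {y : (σᶜ : Finset (Fin n)) → ℝ | Function.updateFinset x σᶜ y ∈ K}).toReal

/-- The sharp inequality, for all convex bodies and all `s`-covers. -/
theorem result (n : ℕ) (K : Set (Fin n → ℝ)) (hconv : Convex ℝ K) (hcomp : IsCompact K)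
    (hint : (interior K).Nonempty) (σ : Finset (Fin n)) (m s : ℕ)
    (c : Fin m → Finset (Fin n)) (hsub : ∀ j, c j ⊆ σ)
    (hcov : ∀ i ∈ σ, (Finset.univ.filter (fun j => i ∈ c j)).card = s) :
    (∏ j, ((σ.card - (c j).card).factorial : ℝ)) / (σ.card.factorial : ℝ) ^ ((m : ℤ) - s) *
      ∏ j, secVol K (c j) 0 ≤
    (volume K).toReal ^ ((m : ℤ) - s) * maxSec K σ ^ s := by
  have hV0 : volume K ≠ 0 := by
    intro h0
    exact (isOpen_interior.measure_pos volume hint).ne' (measure_mono_null interior_subset h0)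
  have hVpos : 0 < (volume K).toReal := ENNReal.toReal_pos hV0 hcomp.measure_lt_top.ne
  rcases σ.eq_empty_or_nonempty with rfl | hσ
  · -- the empty set: both sides are `vol(K)^m`
    have hc : ∀ j, c j = ∅ := fun j => Finset.subset_empty.1 (hsub j)
    have hfull : ∀ x : Fin n → ℝ, volume {y : ((∅ : Finset (Fin n))ᶜ : Finset (Fin n)) → ℝ |
        Function.updateFinset x (∅ : Finset (Fin n))ᶜ y ∈ K} = volume K := by
      intro x
      have hm1 : Measurable (K.indicator (1 : (Fin n → ℝ) → ENNReal)) :=
        measurable_one.indicator hcomp.isClosed.measurableSet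
      have h1 := Pool.Agent.Q189.SC.secVolE_eq hcomp.isClosed.measurableSet ∅ x
      unfold Pool.Agent.Q189.SC.secVolE at h1
      rw [h1, Finset.compl_empty, Pool.Agent.Q189.SC.LM, lmarginal_univ, ← volume_pi,
        lintegral_indicator_one hcomp.isClosed.measurableSet]
    have hmax : maxSec K ∅ = (volume K).toReal := by
      unfold maxSec
      simp_rw [hfull]
      rw [ciSup_const]
    have hsec : ∀ j, secVol K (c j) 0 = (volume K).toReal := by
      intro j
      rw [hc j]
      unfold secVol
      rw [hfull]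
    rw [hmax, ← zpow_natCast (volume K).toReal s, ← zpow_add₀ hVpos.ne', sub_add_cancel,
      zpow_natCast]
    simp_rw [hsec]
    simp [hc]
  · have hsm : s ≤ m := by
      obtain ⟨i, hi⟩ := hσ
      rw [← hcov i hi]
      exact (Finset.card_le_univ _).trans_eq (Fintype.card_fin m)
    obtain ⟨k, rfl⟩ : ∃ k, m = s + k := ⟨m - s, by omega⟩
    have key := Pool.Agent.Q189.SC.main_nat hconv hcomp hint σ hσ (m := s + k) rfl c hsub hcov
    have hz : (((s + k : ℕ) : ℤ) - s) = (k : ℤ) := by push_cast; ring
    rw [hz, zpow_natCast, zpow_natCast, div_mul_eq_mul_div, div_le_iff₀ (by positivity), mul_comm]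
    rw [mul_comm] at key
    refine key.trans (le_of_eq ?_)
    unfold maxSec Pool.Agent.Q189.SC.secVolE
    ring

end Pool.Agent.Results.MP_3c9300_gt.SharpSectionInequality
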